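import Pool.Agent.W645.WV.Main

/-!
# Local smoothing for the Euclidean wave equation on average over dilations of the data
-/

set_option autoImplicit false

open MeasureTheory Set Complex
open scoped ENNReal SchwartzMap

namespace Pool.Agent.Results.MP_ee74d2_an.AverageDilations

/-- the Fourier transform `û(ξ) = ∫ u(y) e^{-2 π i y·ξ} dy` -/
noncomputable def hat {d : ℕ} (u : (Fin d → ℝ) → ℂ) (ξ : Fin d → ℝ) : ℂ :=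
  ∫ y : Fin d → ℝ, cexp (-(2 * (Real.pi : ℂ) * I * ((∑ j, y j * ξ j : ℝ) : ℂ))) * u y

/-- `|ξ|^2` -/
noncomputable def nsq {d : ℕ} (ξ : Fin d → ℝ) : ℝ := ∑ j, ξ j ^ 2

/-- `sin(2 π t r) / (2 π r)` for `r = √y`, with the value `t` at `y = 0` -/
noncomputable def sn (t y : ℝ) : ℝ :=
  if y = 0 then t else Real.sin (2 * Real.pi * t * Real.sqrt y) / (2 * Real.pi * Real.sqrt y)

/-- the solution of `∂_t^2 u = Δ u`, `u(x,0) = u₀(x)`, `∂_t u(x,0) = u₁(x)`: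
`u(x,t) = ∫ (cos(2π t|ξ|) û₀(ξ) + sin(2π t|ξ|)/(2π|ξ|) û₁(ξ)) e^{2π i x·ξ} dξ` -/
noncomputable def wave {d : ℕ} (u₀ u₁ : (Fin d → ℝ) → ℂ) (t : ℝ) (x : Fin d → ℝ) : ℂ :=
  ∫ ξ : Fin d → ℝ, (((Real.cos (2 * Real.pi * t * Real.sqrt (nsq ξ)) : ℝ) : ℂ) * hat u₀ ξ +
    ((sn t (nsq ξ) : ℝ) : ℂ) * hat u₁ ξ) *
      cexp (2 * (Real.pi : ℂ) * I * ((∑ j, x j * ξ j : ℝ) : ℂ))

/-- the Bessel potential `(I - Δ)^{s/2} u` -/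
noncomputable def bessel {d : ℕ} (s : ℝ) (u : (Fin d → ℝ) → ℂ) (x : Fin d → ℝ) : ℂ :=
  ∫ ξ : Fin d → ℝ, ((((1 + 4 * Real.pi ^ 2 * nsq ξ) ^ (s / 2) : ℝ) : ℂ) * hat u ξ) *
      cexp (2 * (Real.pi : ℂ) * I * ((∑ j, x j * ξ j : ℝ) : ℂ))

/-- `‖u₀‖_{L^p_s}^p + ‖u₁‖_{L^p_{s-1}}^p` -/
noncomputable def data {d : ℕ} (p s : ℝ) (u₀ u₁ : (Fin d → ℝ) → ℂ) : ℝ≥0∞ :=
  (∫⁻ x, ‖bessel s u₀ x‖ₑ ^ p) + ∫⁻ x, ‖bessel (s - 1) u₁ x‖ₑ ^ p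

/-- the dilated function `y ↦ u(√a_1 y_1, ..., √a_d y_d)` -/
noncomputable def dilate {d : ℕ} (a : Fin d → ℝ) (u : (Fin d → ℝ) → ℂ) : (Fin d → ℝ) → ℂ :=
  fun y => u (fun j => Real.sqrt (a j) * y j)

/-- the cube `[1,2]^d` of dilations -/
def cube (d : ℕ) : Set (Fin d → ℝ) := Icc (fun _ => (1 : ℝ)) (fun _ => 2)

/-- `∫_1^2 ‖u(·,t)‖_p^p dt` for the wave `u` with the data dilated by `a` -/
noncomputable def energy {d : ℕ} (p : ℝ) (u₀ u₁ : (Fin d → ℝ) → ℂ) (a : Fin d → ℝ) : ℝ≥0∞ :=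
  ∫⁻ t in Icc (1 : ℝ) 2, ∫⁻ x, ‖wave (dilate a u₀) (dilate a u₁) t x‖ₑ ^ p

/-- `‖ (∫_1^2 |u(·,t)|^2 dt)^{1/2} ‖_p^p` for the wave `u` with the data dilated by `a` -/
noncomputable def squareEnergy {d : ℕ} (p : ℝ) (u₀ u₁ : (Fin d → ℝ) → ℂ) (a : Fin d → ℝ) :
    ℝ≥0∞ :=
  ∫⁻ x, (∫⁻ t in Icc (1 : ℝ) 2, ‖wave (dilate a u₀) (dilate a u₁) t x‖ₑ ^ (2 : ℝ)) ^ (p / 2)

open Pool.Agent.W645.WV in
lemma wave_eq {d : ℕ} (u₀ u₁ : (Fin d → ℝ) → ℂ) (t : ℝ) (x : Fin d → ℝ) :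
    wave u₀ u₁ t x = W u₀ u₁ (fun _ => 1) t x := by
  have h : ∀ ξ : Fin d → ℝ, H (fun _ => 1) ξ = nsq ξ := by
    intro ξ
    simp [H, nsq]
  unfold wave W IFT
  simp only [h]
  rfl

open Pool.Agent.W645.WV in
lemma data_eq {d : ℕ} (p s : ℝ) (u₀ u₁ : (Fin d → ℝ) → ℂ) : data p s u₀ u₁ = DN p s u₀ u₁ := rfl

theorem result :
    -- every dimension, 2 ≤ p ≤ 4, loss s > 1/2 - 1/p: the mean inequality, and the inequality for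
    -- all dilations outside a set of measure ε
    (∀ (d : ℕ) (p s : ℝ), 2 ≤ p → p ≤ 4 → 1 / 2 - 1 / p < s →
      ∃ C : ℝ, 0 < C ∧ ∀ u₀ u₁ : 𝓢(Fin d → ℝ, ℂ),
        ∫⁻ a in cube d, energy p (⇑u₀) (⇑u₁) a ≤ ENNReal.ofReal C * data p s (⇑u₀) (⇑u₁) ∧
        ∀ ε : ℝ, 0 < ε → volume {a | a ∈ cube d ∧
          ¬ energy p (⇑u₀) (⇑u₁) a ≤ ENNReal.ofReal (C / ε) * data p s (⇑u₀) (⇑u₁)} ≤
            ENNReal.ofReal ε) ∧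
    -- the exponents of the local smoothing conjecture, d ≥ 4, 2(d-1)/(d-2) ≤ p ≤ 4
    (∀ (d : ℕ) (p σ : ℝ), 4 ≤ d → 2 * ((d : ℝ) - 1) / ((d : ℝ) - 2) ≤ p → p ≤ 4 → σ < 1 / p →
      ∃ C : ℝ, 0 < C ∧ ∀ u₀ u₁ : 𝓢(Fin d → ℝ, ℂ),
        ∫⁻ a in cube d, energy p (⇑u₀) (⇑u₁) a ≤ ENNReal.ofReal C *
          data p (((d : ℝ) - 1) / 2 - ((d : ℝ) - 1) / p - σ) (⇑u₀) (⇑u₁) ∧
        ∀ ε : ℝ, 0 < ε → volume {a | a ∈ cube d ∧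
          ¬ energy p (⇑u₀) (⇑u₁) a ≤ ENNReal.ofReal (C / ε) *
            data p (((d : ℝ) - 1) / 2 - ((d : ℝ) - 1) / p - σ) (⇑u₀) (⇑u₁)} ≤
              ENNReal.ofReal ε) ∧
    -- the square function estimate, every d, 2 ≤ p ≤ 4, every s > 0
    (∀ (d : ℕ) (p s : ℝ), 2 ≤ p → p ≤ 4 → 0 < s →
      ∃ C : ℝ, 0 < C ∧ ∀ u₀ u₁ : 𝓢(Fin d → ℝ, ℂ),
        ∫⁻ a in cube d, squareEnergy p (⇑u₀) (⇑u₁) a ≤
          ENNReal.ofReal C * data p s (⇑u₀) (⇑u₁)) := by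
  have key : ∀ (d : ℕ) (p s : ℝ), 2 ≤ p → p ≤ 4 → 1 / 2 - 1 / p < s →
      ∃ C : ℝ, 0 < C ∧ ∀ u₀ u₁ : 𝓢(Fin d → ℝ, ℂ),
        ∫⁻ a in cube d, energy p (⇑u₀) (⇑u₁) a ≤ ENNReal.ofReal C * data p s (⇑u₀) (⇑u₁) ∧
        ∀ ε : ℝ, 0 < ε → volume {a | a ∈ cube d ∧
          ¬ energy p (⇑u₀) (⇑u₁) a ≤ ENNReal.ofReal (C / ε) * data p s (⇑u₀) (⇑u₁)} ≤
            ENNReal.ofReal ε := by
    intro d p s hp hp4 hs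
    obtain ⟨C, hC, h⟩ := Pool.Agent.W645.WV.final1 (n := d) p s hp hp4 hs
    refine ⟨C, hC, fun u₀ u₁ => ?_⟩
    obtain ⟨h1, h2⟩ := h u₀ u₁
    refine ⟨?_, fun ε hε => ?_⟩
    · simp only [energy, wave_eq, data_eq]
      exact h1
    · simp only [energy, wave_eq, data_eq]
      exact h2 ε hε
  refine ⟨key, ?_, ?_⟩
  · intro d p σ hd hp hp4 hσ
    have hd' : (4 : ℝ) ≤ (d : ℝ) := by exact_mod_cast hd
    have hd2 : (0 : ℝ) < (d : ℝ) - 2 := by linarith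
    have hp2 : 2 < p := by
      refine lt_of_lt_of_le ?_ hp
      rw [lt_div_iff₀ hd2]
      linarith
    have hp0 : 0 < p := by linarith
    refine key d p _ hp2.le hp4 ?_
    have h1 : 2 * ((d : ℝ) - 1) ≤ p * ((d : ℝ) - 2) := by
      rwa [div_le_iff₀ hd2] at hp
    have h2 : 1 / 2 - 1 / p ≤ ((d : ℝ) - 1) / 2 - ((d : ℝ) - 1) / p - 1 / p := by
      have : ((d : ℝ) - 1) / 2 - ((d : ℝ) - 1) / p - 1 / p - (1 / 2 - 1 / p) =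
          (p * ((d : ℝ) - 2) - 2 * ((d : ℝ) - 1)) / (2 * p) := by
        field_simp
        ring
      have h3 : 0 ≤ (p * ((d : ℝ) - 2) - 2 * ((d : ℝ) - 1)) / (2 * p) :=
        div_nonneg (by linarith) (by linarith)
      linarith
    linarith
  · intro d p s hp hp4 hs
    obtain ⟨C, hC, h⟩ := Pool.Agent.W645.WV.final2 (n := d) p s hp hp4 hs
    refine ⟨C, hC, fun u₀ u₁ => ?_⟩
    simp only [squareEnergy, wave_eq, data_eq]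
    exact h u₀ u₁

end Pool.Agent.Results.MP_ee74d2_an.AverageDilations
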